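import Pool.Agent.helper20.FX.Spec

set_option autoImplicit false

/-!
# Project fm, module GDC: number of good exponents in a dyadic block
-/

namespace Pool.Agent.FXM

open Finset

theorem GDC (hWINR : WINR_stmt) : GDC_stmt := by
  intro k M y G hk hk3 hy hXy hyX hG
  set X : ℝ := XX k M with hX
  have hy0 : (0 : ℝ) < y := by exact_mod_cast hy
  have hy1 : (1 : ℝ) ≤ y := by exact_mod_cast hy
  have hX0 : 0 < X := lt_trans (by positivity) hyX
  have hXy1 : (y : ℝ) < X / y := by
    rw [lt_div_iff₀ hy0]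
    nlinarith
  have hXy0 : 0 < X / y := by positivity
  set z : ℝ := (X / y) ^ (1 / 3 : ℝ) with hz
  have hz0 : 0 < z := Real.rpow_pos_of_pos hXy0 _
  have hz1 : 1 < z := Real.one_lt_rpow (lt_of_le_of_lt hy1 hXy1) (by norm_num)
  have hz2 : (X / y) ^ (2 / 3 : ℝ) = z ^ 2 := by
    rw [hz, ← Real.rpow_natCast, ← Real.rpow_mul hXy0.le]
    norm_num
  have hz3 : z ^ 3 = X / y := by
    rw [hz, ← Real.rpow_natCast, ← Real.rpow_mul hXy0.le]
    norm_num
  have hz2y : z ^ 2 ≤ y := by
    rw [← hz2]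
    have h1 : X ≤ (y : ℝ) ^ (5 / 2 : ℝ) := by
      have h2 := Real.rpow_le_rpow (Real.rpow_nonneg hX0.le _) hXy (by norm_num : (0 : ℝ) ≤ 5 / 2)
      rw [← Real.rpow_mul hX0.le] at h2
      norm_num at h2
      exact h2
    have h3 : (y : ℝ) ^ (5 / 2 : ℝ) = y * (y : ℝ) ^ (3 / 2 : ℝ) := by
      rw [show (5 / 2 : ℝ) = 1 + 3 / 2 by norm_num, Real.rpow_add hy0, Real.rpow_one]
    have h4 : X / y ≤ (y : ℝ) ^ (3 / 2 : ℝ) := by
      rw [div_le_iff₀ hy0, mul_comm, ← h3]
      exact h1
    have h5 := Real.rpow_le_rpow hXy0.le h4 (by norm_num : (0 : ℝ) ≤ 2 / 3)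
    rw [← Real.rpow_mul hy0.le] at h5
    norm_num at h5
    norm_num
    exact h5
  set W : ℝ := X / y ^ 2 with hW
  have hW1 : 1 < W := by
    rw [hW, lt_div_iff₀ (by positivity), one_mul]
    exact hyX
  have hWy : W * y = z ^ 3 := by
    rw [hz3, hW]
    field_simp
  have hWz : W ≤ z := by
    have h1 : W * y ≤ z * y := by
      rw [hWy]
      nlinarith
    exact le_of_mul_le_mul_right h1 hy0
  set d : ℕ := ⌈z⌉₊ with hd
  have hd1 : z ≤ (d : ℝ) := Nat.le_ceil z
  have hd2 : (d : ℝ) < z + 1 := Nat.ceil_lt_add_one hz0.le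
  have hdpos : 0 < d := Nat.ceil_pos.mpr hz0
  set s : ℕ := ⌈W⌉₊ + 4 with hs
  have hs1 : W + 4 ≤ (s : ℝ) := by
    rw [hs]
    push_cast
    have := Nat.le_ceil W
    linarith
  have hs2 : (s : ℝ) < W + 5 := by
    rw [hs]
    push_cast
    have := Nat.ceil_lt_add_one (show 0 ≤ W by linarith)
    linarith
  have hdd : (d : ℝ) * (d + 1) / 2 + 1 ≤ 4 * z ^ 2 := by
    have h1 : (d : ℝ) * (d + 1) ≤ (z + 1) * (z + 1 + 1) := by
      apply mul_le_mul hd2.le (by linarith) (by positivity) (by linarith)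
    nlinarith
  -- the fibres
  have hfib : ∀ i ∈ G.image (fun n => (n - y) / d),
      (G.filter (fun n => (n - y) / d = i)).card ≤ s := by
    intro i _
    by_contra hcon
    push Not at hcon
    obtain ⟨U, hUG, hUs⟩ := Finset.exists_subset_card_eq hcon.le
    set a : ℕ := y + i * d with ha
    have hay : (y : ℝ) ≤ a := by
      rw [ha]
      push_cast
      have : (0 : ℝ) ≤ (i : ℝ) * d := by positivity
      linarith
    have ha0 : (0 : ℝ) < a := lt_of_lt_of_le hy0 hay
    have hmem : ∀ n ∈ U, n ∈ G ∧ (n - y) / d = i := by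
      intro n hn
      exact Finset.mem_filter.mp (hUG hn)
    apply hWINR k M a d U (18 * z ^ 2) hk hk3 (by omega)
    · rw [← Finset.card_pos, hUs]
      omega
    · intro n hn
      obtain ⟨h1, h2⟩ := hmem n hn
      have h3 := (hG n h1).1
      have h4 := Nat.div_mul_le_self (n - y) d
      have h5 := Nat.lt_div_mul_add hdpos (a := n - y)
      rw [h2] at h4 h5
      constructor
      · omega
      · omega
    · intro n hn
      exact (hG n (hmem n hn).1).2.2.1
    · rw [hUs]
      have h1 : X / a ≤ W * a := by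
        rw [div_le_iff₀ ha0]
        have h2 : X = W * y ^ 2 := by
          rw [hW]
          field_simp
        have h3 : (y : ℝ) ^ 2 ≤ a * a := by nlinarith
        calc X = W * y ^ 2 := h2
          _ ≤ W * (a * a) := mul_le_mul_of_nonneg_left h3 (by linarith)
          _ = W * a * a := by ring
      have h2 : (W + 4) * a ≤ (s : ℝ) * a := mul_le_mul_of_nonneg_right hs1 ha0.le
      have h3 : 4 * z ^ 2 ≤ 4 * a := by linarith
      linarith
    · rw [hUs]
      have h1 : X * d / (a : ℝ) ^ 2 ≤ W * (2 * z) := by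
        rw [div_le_iff₀ (by positivity)]
        have h2 : X = W * y ^ 2 := by
          rw [hW]
          field_simp
        have h3 : (y : ℝ) ^ 2 ≤ (a : ℝ) ^ 2 := pow_le_pow_left₀ hy0.le hay 2
        have h4 : (d : ℝ) ≤ 2 * z := by linarith
        calc X * d = W * y ^ 2 * d := by rw [← h2]
          _ ≤ W * (a : ℝ) ^ 2 * (2 * z) := by
            apply mul_le_mul _ h4 (by positivity) (by positivity)
            exact mul_le_mul_of_nonneg_left h3 (by linarith)
          _ = W * (2 * z) * (a : ℝ) ^ 2 := by ring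
      have h5 : W * (2 * z) ≤ 2 * z ^ 2 := by nlinarith
      have h6 : z ≤ z ^ 2 := by nlinarith
      linarith
    · intro n hn
      have h1 := (hG n (hmem n hn).1).2.2.2
      rw [hz2] at h1
      exact h1
  have hcard := Finset.card_le_mul_card_image G s hfib
  have himg : G.image (fun n => (n - y) / d) ⊆ Finset.range (y / d + 1) := by
    intro i hi
    obtain ⟨n, hn, rfl⟩ := Finset.mem_image.mp hi
    rw [Finset.mem_range]
    have h1 := (hG n hn).2.1
    have h2 : (n - y) / d ≤ y / d := Nat.div_le_div_right (by omega)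
    omega
  have hc2 := Finset.card_le_card himg
  rw [Finset.card_range] at hc2
  have hc3 : (G.card : ℝ) ≤ (s : ℝ) * ((y / d : ℕ) + 1) := by
    have : G.card ≤ s * (y / d + 1) := hcard.trans (Nat.mul_le_mul_left s hc2)
    exact_mod_cast this
  have hyd : ((y / d : ℕ) : ℝ) ≤ y / z := by
    refine (Nat.cast_div_le).trans ?_
    exact div_le_div_of_nonneg_left hy0.le hz0 hd1
  have hyz : 1 ≤ (y : ℝ) / z := by
    rw [le_div_iff₀ hz0]
    nlinarith
  have hfin : (s : ℝ) * ((y / d : ℕ) + 1) ≤ (6 * W) * (2 * (y / z)) := by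
    apply mul_le_mul _ _ (by positivity) (by linarith)
    · linarith
    · linarith
  have hlast : (6 * W) * (2 * (y / z)) = 12 * z ^ 2 := by
    have : (6 * W) * (2 * (y / z)) = 12 * (W * y) / z := by ring
    rw [this, hWy]
    field_simp
  rw [hz2]
  linarith

end Pool.Agent.FXM
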